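import Pool.Agent.TH756.PN.FinW
import Pool.Agent.TH756.PN.Lin
import Pool.Agent.TH756.PN.Cy
import Pool.Agent.TH756.PN.Wt
import Pool.Agent.TH756.PR.Cov

/-!
Abelian covers of a product of projective spaces: the Kodaira dimension and the numerical dimension.
-/

set_option autoImplicit false
set_option linter.unusedSectionVars false

open FF Module Pool.Agent.W603.LV Pool.Agent.W602.GT Pool.Agent.W602.Cov Pool.Agent.W602.Cov.G
open Pool.Agent.W168.CG.PGR Pool.Agent.TH152.AC Pool.Agent.TH756.AR Pool.Agent.TH756.PR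
open Pool.Agent.TH756.PN Pool.Agent.TH122.AB

namespace Pool.Agent.Q73.MT

/-- weights for one factor -/
theorem factor_weights {n q : ℕ} {ℓ : Fin q → Form n} (hn : 1 ≤ n) (hℓ : ∀ i, ℓ i ≠ 0)
    (hr : ¬ Reducible ℓ) {d : ℕ} (hd : Bnd ℓ d) (Ok : (Fin q → ℕ) → Prop) (a : ℕ)
    (ha : n + 2 ≤ a) :
    ∃ (p : Bases ℓ → ℕ) (g : (Fin q → ℕ) → ℚ) (M : ℕ), 0 < ∑ B, p B ∧ 1 ≤ M ∧ Hp ℓ p g ∧
      (∀ v, Par ℓ v → ∀ k, ((a : ℚ) - 1) * v k ≤ a * (d * g v)) ∧
      ∀ v, Par ℓ v → Ok v → (∃ k, n + 2 ≤ v k) → 1 ≤ g v ∧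
        ((¬ ∃ c, General ℓ c ∧ ∀ j, Ok (pat ℓ c j)) → (M : ℚ) + 1 ≤ M * g v) := by
  have hsup : ∀ (v : Fin q → ℕ) k, v k ≤ Finset.univ.sup v := fun v k =>
    Finset.le_sup (Finset.mem_univ k)
  have haq : (1 : ℚ) ≤ a := by
    have : 1 ≤ a := by omega
    exact_mod_cast this
  rcases hd with rfl | ⟨rfl, h⟩
  · by_cases hno : ∃ c, General ℓ c ∧ ∀ j, Ok (pat ℓ c j)
    · obtain ⟨c, hc, -⟩ := id hno
      obtain ⟨p, g, hp0, hp, hg⟩ := fd_cy hc
      refine ⟨p, g, 1, hp0, le_rfl, hp, fun v hv k => ?_, fun v hv _ hk =>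
        ⟨?_, fun h => absurd hno h⟩⟩
      · have h1 := hg v hv k
        have h2 : (0 : ℚ) ≤ v k := by positivity
        push_cast
        nlinarith
      · obtain ⟨k, hk⟩ := hk
        have h1 := hg v hv k
        have h2 : (n : ℚ) + 2 ≤ v k := by exact_mod_cast hk
        have h3 : (0 : ℚ) < (n : ℚ) + 2 := by positivity
        nlinarith
    · obtain ⟨p, g, M, hp0, hM, hp, hg, hs⟩ := fd_big hn hℓ hr Ok hno a ha
      refine ⟨p, g, M, hp0, hM, hp, fun v hv k => ?_, fun v hv hok hk => ?_⟩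
      · have := hg v hv k
        push_cast
        exact this
      · have h1 := hs v hv hok hk
        have h2 : (0 : ℚ) < M := by exact_mod_cast hM
        exact ⟨by nlinarith, fun _ => h1⟩
  · have hsl := slack_of_not_simplicial hn hℓ hr (h.resolve_left hr)
    obtain ⟨p, hp0, hp⟩ := wtd_slack (by omega) hsl (Pool.Agent.W392.CG.span_top hn ℓ hr)
    have hn1 : (0 : ℚ) < ((n + 1 : ℕ) : ℚ) := by positivity
    refine ⟨p, mx (n + 1), n + 1, hp0, by omega, hp, fun v _ k => ?_, fun v _ _ hk => ?_⟩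
    · unfold mx
      rw [mul_div_cancel₀ _ hn1.ne']
      have h1 : (v k : ℚ) ≤ ((Finset.univ.sup v : ℕ) : ℚ) := by exact_mod_cast hsup v k
      have h2 : (0 : ℚ) ≤ v k := by positivity
      nlinarith
    · obtain ⟨k, hk⟩ := hk
      have h1 : n + 2 ≤ Finset.univ.sup v := hk.trans (hsup v k)
      have h2 : (n : ℚ) + 2 ≤ ((Finset.univ.sup v : ℕ) : ℚ) := by exact_mod_cast h1
      unfold mx
      refine ⟨?_, fun _ => ?_⟩
      · rw [le_div_iff₀ hn1]
        push_cast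
        linarith
      · rw [mul_div_cancel₀ _ hn1.ne']
        push_cast
        linarith

variable {r N Q R : ℕ} {n q : Fin r → ℕ} (e : ((i : Fin r) × Fin (n i)) ≃ Fin N)
  (e' : ((i : Fin r) × Fin (q i)) ≃ Fin Q) {ℓ : ∀ i, Fin (q i) → Form (n i)}
  {K : Type} [Field K] [Algebra ℂ K] {z : Fin (N + 1) → K} {y : Fin R → K}

/-- equal hyperplanes have equal multiplicities -/
theorem par_of_ord {n q : ℕ} {ℓ : Fin q → Form n} {x : Fin (n + 1) → K}
    (hlx : ∀ k, lf (ℓ k) x ≠ 0) {P : Place ℂ K} {a : ℤ} {v : Fin q → ℕ}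
    (hord : ∀ k, P.ord (lf (ℓ k) x) = a + v k) : Par ℓ v := by
  rintro k k' ⟨t, ht⟩
  have h1 : lf (ℓ k) x = algebraMap ℂ K t * lf (ℓ k') x := by
    rw [ht]
    unfold lf
    rw [Finset.mul_sum]
    refine Finset.sum_congr rfl fun j _ => ?_
    rw [LinearMap.smul_apply, smul_eq_mul, map_mul, mul_assoc]
  have ht0 : t ≠ 0 := by
    rintro rfl
    apply hlx k
    rw [h1, map_zero, zero_mul]
  have h2 : P.ord (lf (ℓ k) x) = P.ord (lf (ℓ k') x) := by
    rw [h1, P.ord_mul ((map_ne_zero _).2 ht0) (hlx k'), P.ord_const ht0, zero_add]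
  rw [hord, hord] at h2
  omega

/-- the multiplicities are large, or only one factor has multiplicities and they are at least
`n i + 2` -/
def Lg (n : Fin r → ℕ) (d : Fin r → ℕ) (v : ∀ i, Fin (q i) → ℕ) : Prop :=
  (∃ k : ∀ i, Fin (q i), (1 : ℚ) < ∑ i, (v i (k i) : ℚ) / d i) ∨
    ∃ i, (∀ j, j ≠ i → v j = 0) ∧ ∃ k, n i + 2 ≤ v i k

theorem kod (hr : 1 ≤ r) (hn : ∀ i, 1 ≤ n i) (X : Cover N Q R) (hF : X.Free)
    (hK : X.FunctionField K z y) (hX : ∀ i k, X.ℓ (e' ⟨i, k⟩) = lift e i (ℓ i k))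
    (hdeg : ∀ j i, X.m j ∣ ∑ k, X.e j (e' ⟨i, k⟩)) (d : Fin r → ℕ)
    (hd : ∀ i, Bnd (ℓ i) (d i)) (hi : ∀ i, ¬ Reducible (ℓ i)) (h : MultP X e' ℓ (Lg n d))
    (I : Finset (Fin r)) (hI : ∀ i ∈ I, ¬ ∃ c, General (ℓ i) c ∧ CalabiP X e' ℓ i c) :
    KodGe ℂ K N (fun _ => False) (∑ i ∈ I, n i) := by
  classical
  obtain ⟨h1, h2, h3⟩ := coords X hK
  have hspan : ∀ i, Submodule.span ℂ (Set.range (ℓ i)) = ⊤ := fun i =>
    Pool.Agent.W392.CG.span_top (hn i) (ℓ i) (hi i)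
  have hd1 : ∀ i, 1 ≤ d i := by
    intro i
    rcases hd i with h' | h' <;> omega
  have hd2 : ∀ i, d i ≤ n i + 2 := by
    intro i
    rcases hd i with h' | h' <;> omega
  obtain ⟨D, hD⟩ : ∃ D, D = ∏ i, d i := ⟨_, rfl⟩
  have hDpos : 0 < D := by
    rw [hD]
    exact Finset.prod_pos fun i _ => hd1 i
  obtain ⟨a, haD⟩ : ∃ a, a = 2 * D + 2 + ∑ i, (n i + 2) := ⟨_, rfl⟩
  have ha : ∀ i, n i + 2 ≤ a := by
    intro i
    have : n i + 2 ≤ ∑ i, (n i + 2) :=
      Finset.single_le_sum (f := fun i => n i + 2) (fun _ _ => Nat.zero_le _) (Finset.mem_univ i)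
    omega
  let Ok : ∀ i, (Fin (q i) → ℕ) → Prop := fun i v => ∀ k, X.m k ∣ ∑ s, X.e k (e' ⟨i, s⟩) * v s
  choose p g M hp0 hM hp hg hs using fun i => factor_weights (hn i) (forms_ne e e' hX i) (hi i)
    (hd i) (Ok i) a (ha i)
  have hlx : ∀ i k, lf (ℓ i k) (cc e z i) ≠ 0 := by
    intro i k
    have h4 := h1 (e' ⟨i, k⟩)
    rw [hX, lf_lift] at h4
    exact h4
  have haq : (2 : ℚ) ≤ a := by
    have : 2 ≤ a := by omega
    exact_mod_cast this
  -- bounds
  have hb0 : ∀ i (v : Fin (q i) → ℕ), Par (ℓ i) v → 0 ≤ g i v := by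
    intro i v hv
    obtain ⟨B⟩ := exists_bases (hspan i)
    have h5 := hg i v hv (B.1 0)
    have h6 : (0 : ℚ) < d i := by exact_mod_cast hd1 i
    have h7 : (0 : ℚ) ≤ ((a : ℚ) - 1) * v (B.1 0) := by
      apply mul_nonneg (by linarith)
      positivity
    have h8 : (0 : ℚ) ≤ a * (d i * g i v) := h7.trans h5
    have h9 : (0 : ℚ) ≤ d i * g i v := nonneg_of_mul_nonneg_right h8 (by linarith)
    exact nonneg_of_mul_nonneg_right h9 h6
  obtain ⟨A, hA⟩ : ∃ A, A = 2 * ∑ i, d i := ⟨_, rfl⟩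
  have hsd : ∀ i, d i ≤ ∑ i, d i := fun i =>
    Finset.single_le_sum (f := d) (fun _ _ => Nat.zero_le _) (Finset.mem_univ i)
  have hA1 : 1 ≤ A := by
    have := hsd ⟨0, hr⟩
    have := hd1 ⟨0, hr⟩
    omega
  have hbA : ∀ i (v : Fin (q i) → ℕ), Par (ℓ i) v → ∀ k, (v k : ℚ) ≤ A * g i v := by
    intro i v hv k
    have h5 := hg i v hv k
    have h6 := hb0 i v hv
    have h7 : (d i : ℚ) ≤ ((∑ i, d i : ℕ) : ℚ) := by exact_mod_cast hsd i
    have h8 : (0 : ℚ) ≤ v k := by positivity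
    have h9 : (A : ℚ) = 2 * ((∑ i, d i : ℕ) : ℚ) := by
      rw [hA]
      push_cast
      ring
    have h10 : (a : ℚ) * v k ≤ a * (2 * (d i * g i v)) := by
      nlinarith
    have h11 : (v k : ℚ) ≤ 2 * (d i * g i v) := le_of_mul_le_mul_left h10 (by linarith)
    rw [h9]
    nlinarith
  -- the common M
  obtain ⟨MM, hMM⟩ : ∃ MM, MM = 2 * D + ∑ i, M i := ⟨_, rfl⟩
  have hMM1 : 1 ≤ MM := by omega
  have hMMi : ∀ i, M i ≤ MM := by
    intro i
    have : M i ≤ ∑ i, M i :=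
      Finset.single_le_sum (f := M) (fun _ _ => Nat.zero_le _) (Finset.mem_univ i)
    omega
  obtain ⟨s, hs'⟩ : ∃ s : Finset (Fin N), s = Finset.univ.filter
    fun b : Fin N => (e.symm b).1 ∈ I := ⟨_, rfl⟩
  have hsI : ∀ b ∈ s, (e.symm b).1 ∈ I := by
    intro b hb
    rw [hs', Finset.mem_filter] at hb
    exact hb.2
  have hscard : s.card = ∑ i ∈ I, n i := by
    have h5 : s = (I.sigma fun i => (Finset.univ : Finset (Fin (n i)))).map e.toEmbedding := by
      ext b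
      rw [hs', Finset.mem_filter, Finset.mem_map]
      constructor
      · rintro ⟨-, hb⟩
        exact ⟨e.symm b, Finset.mem_sigma.2 ⟨hb, Finset.mem_univ _⟩, e.apply_symm_apply b⟩
      · rintro ⟨c, hc, rfl⟩
        refine ⟨Finset.mem_univ _, ?_⟩
        change (e.symm (e c)).1 ∈ I
        rw [e.symm_apply_apply]
        exact (Finset.mem_sigma.1 hc).1
    rw [h5, Finset.card_map, Finset.card_sigma]
    simp
  refine kodGeW e hspan p hp0 g hp A hA1 (fun P a v hord i k => hbA i _ (par_of_ord (hlx i)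
    (hord i)) k) hlx (fun i => h2) (basis_cc e X hK) _ I MM hMM1
    (fun P _ _ a' v hord hsp hv => ?_) _ (s.orderEmbOfFin hscard)
    (s.orderEmbOfFin hscard).injective fun b => ?_
  swap
  · exact hsI _ (Finset.orderEmbOfFin_mem s hscard b)
  obtain ⟨h5, h6⟩ := compatP e e' hr X hF hK hX hdeg hspan P a' v hord hsp
  have hpar : ∀ i, Par (ℓ i) (v i) := fun i => par_of_ord (hlx i) (hord i)
  have hgn : ∀ i, 0 ≤ g i (v i) := fun i => hb0 i _ (hpar i)
  rcases h v hv h5 h6 with ⟨k, hk⟩ | ⟨i, hi0, k, hk⟩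
  · -- several factors
    have h7 : 1 + 1 / (D : ℚ) ≤ ∑ i, (v i (k i) : ℚ) / d i := by
      obtain ⟨m, hm⟩ : ∃ m : ℕ, ∑ i, (v i (k i) : ℚ) / d i = m / D := by
        refine ⟨∑ i, v i (k i) * ∏ j ∈ Finset.univ.erase i, d j, ?_⟩
        push_cast
        rw [Finset.sum_div]
        refine Finset.sum_congr rfl fun i _ => ?_
        have h8 : (D : ℚ) = d i * ∏ j ∈ Finset.univ.erase i, (d j : ℚ) := by
          rw [hD]
          push_cast
          exact (Finset.mul_prod_erase Finset.univ (fun j => (d j : ℚ)) (Finset.mem_univ i)).symm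
        have h9 : (d i : ℚ) ≠ 0 := by
          have := hd1 i
          positivity
        have h10 : (∏ j ∈ Finset.univ.erase i, (d j : ℚ)) ≠ 0 := by
          refine Finset.prod_ne_zero_iff.2 fun j _ => ?_
          have := hd1 j
          positivity
        rw [h8]
        field_simp
      have hDq : (0 : ℚ) < D := by exact_mod_cast hDpos
      rw [hm] at hk ⊢
      rw [lt_div_iff₀ hDq, one_mul] at hk
      have h8 : D + 1 ≤ m := by exact_mod_cast hk
      rw [le_div_iff₀ hDq, add_mul, one_div, inv_mul_cancel₀ hDq.ne', one_mul]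
      exact_mod_cast h8
    have h8 : ((a : ℚ) - 1) * ∑ i, (v i (k i) : ℚ) / d i ≤ a * ∑ i, g i (v i) := by
      rw [Finset.mul_sum, Finset.mul_sum]
      refine Finset.sum_le_sum fun i _ => ?_
      have h9 := hg i (v i) (hpar i) (k i)
      have h10 : (0 : ℚ) < d i := by exact_mod_cast hd1 i
      rw [← mul_div_assoc, div_le_iff₀ h10]
      calc ((a : ℚ) - 1) * v i (k i) ≤ a * (d i * g i (v i)) := h9
        _ = a * g i (v i) * d i := by ring
    have hDq : (0 : ℚ) < D := by exact_mod_cast hDpos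
    have haD' : 2 * (D : ℚ) + 2 ≤ a := by
      have : 2 * D + 2 ≤ a := by omega
      exact_mod_cast this
    have h9 : 1 + 1 / (2 * (D : ℚ)) ≤ ∑ i, g i (v i) := by
      have h10 : ((a : ℚ) - 1) * (1 + 1 / (D : ℚ)) ≤ a * ∑ i, g i (v i) :=
        (mul_le_mul_of_nonneg_left h7 (by linarith)).trans h8
      have h11 : (a : ℚ) * (1 + 1 / (2 * (D : ℚ))) ≤ ((a : ℚ) - 1) * (1 + 1 / (D : ℚ)) := by
        have h12 : ((a : ℚ) - 1) * (1 + 1 / (D : ℚ)) - (a : ℚ) * (1 + 1 / (2 * (D : ℚ))) =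
            (a - (2 * D + 2)) / (2 * D) := by
          field_simp
          ring
        have h13 : 0 ≤ ((a : ℚ) - (2 * D + 2)) / (2 * D) :=
          div_nonneg (by linarith) (by positivity)
        linarith
      exact le_of_mul_le_mul_left (h11.trans h10) (by linarith)
    have h10 : (0 : ℚ) < 1 / (2 * (D : ℚ)) := by positivity
    refine ⟨by linarith, fun _ => ?_⟩
    have h11 : 2 * (D : ℚ) ≤ MM := by
      have : 2 * D ≤ MM := by omega
      exact_mod_cast this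
    have h12 : (1 : ℚ) ≤ MM * (1 / (2 * (D : ℚ))) := by
      rw [mul_one_div, le_div_iff₀ (by positivity)]
      linarith
    have h13 : (0 : ℚ) < MM := by linarith
    nlinarith
  · -- one factor
    have hok : Ok i (v i) := by
      intro k'
      have h7 := h6 k'
      rwa [Finset.sum_eq_single i] at h7
      · intro j _ hj
        rw [hi0 j hj]
        simp
      · intro hno
        exact absurd (Finset.mem_univ _) hno
    obtain ⟨h7, h8⟩ := hs i (v i) (hpar i) hok ⟨k, hk⟩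
    have h9 : g i (v i) ≤ ∑ i, g i (v i) :=
      Finset.single_le_sum (f := fun i => g i (v i)) (fun j _ => hgn j) (Finset.mem_univ i)
    refine ⟨h7.trans h9, ?_⟩
    rintro ⟨i', hi'I, hi'⟩
    have hii : i' = i := by
      by_contra hne
      exact hi' (hi0 i' hne)
    subst hii
    have h10 := h8 fun ⟨c, hc1, hc2⟩ => hI i' hi'I ⟨c, hc1, fun j k => hc2 j k⟩
    have h11 : (0 : ℚ) < M i' := by exact_mod_cast hM i'
    have h12 : (M i' : ℚ) ≤ MM := by exact_mod_cast hMMi i'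
    have h13 : 1 ≤ (M i' : ℚ) * (g i' (v i') - 1) := by linarith
    have h14 : 0 ≤ g i' (v i') - 1 := by linarith
    nlinarith

/-- **Abundance.** -/
theorem tri (hr : 1 ≤ r) (hn : ∀ i, 1 ≤ n i) (X : Cover N Q R) (hF : X.Free)
    (hK : X.FunctionField K z y) (hX : ∀ i k, X.ℓ (e' ⟨i, k⟩) = lift e i (ℓ i k))
    (h0 : ∀ i, ∃ (k : Fin (q i)) (c : ℂ), ℓ i k = c • LinearMap.proj 0)
    (hdeg : ∀ j i, X.m j ∣ ∑ k, X.e j (e' ⟨i, k⟩)) (d : Fin r → ℕ)
    (hd : ∀ i, Bnd (ℓ i) (d i)) (h : MultP X e' ℓ (Lg n d))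
    (I : Finset (Fin r)) (hI : ∀ i, i ∉ I ↔ ∃ c, General (ℓ i) c ∧ CalabiP X e' ℓ i c) :
    [KodGe ℂ K N (fun _ => False) 0, Psef ℂ K N (fun _ => False), ¬ Ruled ℂ K,
      ∀ i, ¬ Reducible (ℓ i)].TFAE ∧
    ((∀ i, ¬ Reducible (ℓ i)) → KodGe ℂ K N (fun _ => False) (∑ i ∈ I, n i) ∧
      Pool.Agent.W619.TW.NumLe ℂ K N (fun _ => False) (∑ i ∈ I, n i)) := by
  refine ⟨tfaeP0 e e' hr hn X hF hK hX h0 hdeg d hd fun v hv h1 h2 => ?_, fun hi => ⟨?_, ?_⟩⟩
  · rcases h v hv h1 h2 with ⟨k, hk⟩ | ⟨i, hi0, k, hk⟩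
    · exact ⟨k, hk.le⟩
    · choose kk cc hkk using h0
      refine ⟨Function.update kk i k, ?_⟩
      have h3 : (1 : ℚ) ≤ (v i (Function.update kk i k i) : ℚ) / d i := by
        have hd1 : 1 ≤ d i ∧ d i ≤ n i + 2 := by
          rcases hd i with h' | h' <;> omega
        have h4 : (0 : ℚ) < d i := by exact_mod_cast hd1.1
        rw [le_div_iff₀ h4, one_mul, Function.update_self]
        exact_mod_cast hd1.2.trans hk
      exact h3.trans (Finset.single_le_sum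
        (f := fun i' => (v i' (Function.update kk i k i') : ℚ) / d i')
        (fun _ _ => by positivity) (Finset.mem_univ i))
  · exact kod e e' hr hn X hF hK hX hdeg d hd hi h I fun i hi' hc => (hI i).2 hc hi'
  · obtain ⟨N', rfl⟩ : ∃ N', N = N' + 1 := by
      have : 0 < N := by
        have h2 := hn ⟨0, hr⟩
        exact (e ⟨⟨0, hr⟩, ⟨0, h2⟩⟩).pos
      exact ⟨N - 1, by omega⟩
    have h1 : ∀ i, ∃ c : Fin (n i + 2) → Fin (q i), i ∉ I →
        General (ℓ i) c ∧ CalabiP X e' ℓ i c := by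
      intro i
      by_cases hi' : i ∉ I
      · obtain ⟨c, hc⟩ := (hI i).1 hi'
        exact ⟨c, fun _ => hc⟩
      · obtain ⟨k, -, -⟩ := h0 i
        exact ⟨fun _ => k, fun h => absurd h hi'⟩
    choose c hc using h1
    exact nuP e e' hn X hF hK hX h0 hdeg I c (fun i hi' => (hc i hi').1) fun i hi' => (hc i hi').2

end Pool.Agent.Q73.MT

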