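import Pool.Agent.Q73.MT.NuV

/-!
The Kodaira dimension of a variety over a product of projective spaces.
-/

set_option autoImplicit false
set_option linter.unusedSectionVars false

open FF Module Pool.Agent.W603.LV Pool.Agent.W602.GT Pool.Agent.W602.Cov Pool.Agent.W602.Cov.G
open Pool.Agent.W168.CG.PGR Pool.Agent.TH152.AC Pool.Agent.TH756.AR Pool.Agent.TH756.PR
open Pool.Agent.TH756.PN Pool.Agent.TH122.AB

namespace Pool.Agent.Q73.MT

variable {r N : ℕ} {n q : Fin r → ℕ}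
  {ℓ : ∀ i, Fin (q i) → Form (n i)} {K : Type} [Field K] [Algebra ℂ K]

/-- the multiplicities `n i + 2` for one hyperplane and `0` for the others occur at some prime
divisor, for each hyperplane of the factor -/
def Occur (N : ℕ) (ℓ : ∀ i, Fin (q i) → Form (n i)) (x : ∀ i, Fin (n i + 1) → K) (i : Fin r)
    (c : Fin (n i + 2) → Fin (q i)) : Prop :=
  ∀ j, ∃ P : Place ℂ K, Divisorial N P ∧ ∃ (a : Fin r → ℤ) (v : ∀ i, Fin (q i) → ℕ),
    Nrm ℓ x P a v ∧ v i = pat (ℓ i) c j ∧ ∀ j', j' ≠ i → v j' = 0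

theorem kodV (hr : 1 ≤ r) (hn : ∀ i, 1 ≤ n i) (hN : N = ∑ i, n i) (hℓ : ∀ i k, ℓ i k ≠ 0)
    {x : ∀ i, Fin (n i + 1) → K} (hx0 : ∀ i, x i 0 ≠ 0) (hbas : IsTranscendenceBasis ℂ (aff x))
    (d : Fin r → ℕ)
    (hd : ∀ i, Bnd (ℓ i) (d i)) (hi : ∀ i, ¬ Reducible (ℓ i))
    (h : ∀ P : Place ℂ K, Divisorial N P → ∀ a v, Nrm ℓ x P a v → (∃ i, v i ≠ 0) → Lg n d v)
    (I : Finset (Fin r)) (hI : ∀ i ∈ I, ¬ ∃ c, General (ℓ i) c ∧ Occur N ℓ x i c) :
    KodGe ℂ K N (fun _ => False) (∑ i ∈ I, n i) := by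
  classical
  obtain ⟨e⟩ : Nonempty (((i : Fin r) × Fin (n i)) ≃ Fin N) :=
    ⟨finSigmaFinEquiv.trans (finCongr hN.symm)⟩
  have hspan : ∀ i, Submodule.span ℂ (Set.range (ℓ i)) = ⊤ := fun i =>
    Pool.Agent.W392.CG.span_top (hn i) (ℓ i) (hi i)
  have hd1 : ∀ i, 1 ≤ d i := by
    intro i
    rcases hd i with h' | h' <;> omega
  have hd2 : ∀ i, d i ≤ n i + 2 := by
    intro i
    rcases hd i with h' | h' <;> omega
  obtain ⟨D, hD⟩ : ∃ D, D = ∏ i, d i := ⟨_, rfl⟩
  have hDpos : 0 < D := by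
    rw [hD]
    exact Finset.prod_pos fun i _ => hd1 i
  obtain ⟨a, haD⟩ : ∃ a, a = 2 * D + 2 + ∑ i, (n i + 2) := ⟨_, rfl⟩
  have ha : ∀ i, n i + 2 ≤ a := by
    intro i
    have : n i + 2 ≤ ∑ i, (n i + 2) :=
      Finset.single_le_sum (f := fun i => n i + 2) (fun _ _ => Nat.zero_le _) (Finset.mem_univ i)
    omega
  let Ok : ∀ i, (Fin (q i) → ℕ) → Prop := fun i u => ∃ P : Place ℂ K, Divisorial N P ∧
    ∃ (a : Fin r → ℤ) (v : ∀ i, Fin (q i) → ℕ), Nrm ℓ x P a v ∧ v i = u ∧ ∀ j', j' ≠ i → v j' = 0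
  choose p g M hp0 hM hp hg hs using fun i => factor_weights (hn i) (hℓ i) (hi i)
    (hd i) (Ok i) a (ha i)
  have hlx : ∀ i k, lf (ℓ i k) (x i) ≠ 0 := fun i k => lfs_ne hx0 hbas i (hℓ i k)
  have haq : (2 : ℚ) ≤ a := by
    have : 2 ≤ a := by omega
    exact_mod_cast this
  -- bounds
  have hb0 : ∀ i (v : Fin (q i) → ℕ), Par (ℓ i) v → 0 ≤ g i v := by
    intro i v hv
    obtain ⟨B⟩ := exists_bases (hspan i)
    have h5 := hg i v hv (B.1 0)
    have h6 : (0 : ℚ) < d i := by exact_mod_cast hd1 i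
    have h7 : (0 : ℚ) ≤ ((a : ℚ) - 1) * v (B.1 0) := by
      apply mul_nonneg (by linarith)
      positivity
    have h8 : (0 : ℚ) ≤ a * (d i * g i v) := h7.trans h5
    have h9 : (0 : ℚ) ≤ d i * g i v := nonneg_of_mul_nonneg_right h8 (by linarith)
    exact nonneg_of_mul_nonneg_right h9 h6
  obtain ⟨A, hA⟩ : ∃ A, A = 2 * ∑ i, d i := ⟨_, rfl⟩
  have hsd : ∀ i, d i ≤ ∑ i, d i := fun i =>
    Finset.single_le_sum (f := d) (fun _ _ => Nat.zero_le _) (Finset.mem_univ i)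
  have hA1 : 1 ≤ A := by
    have := hsd ⟨0, hr⟩
    have := hd1 ⟨0, hr⟩
    omega
  have hbA : ∀ i (v : Fin (q i) → ℕ), Par (ℓ i) v → ∀ k, (v k : ℚ) ≤ A * g i v := by
    intro i v hv k
    have h5 := hg i v hv k
    have h6 := hb0 i v hv
    have h7 : (d i : ℚ) ≤ ((∑ i, d i : ℕ) : ℚ) := by exact_mod_cast hsd i
    have h8 : (0 : ℚ) ≤ v k := by positivity
    have h9 : (A : ℚ) = 2 * ((∑ i, d i : ℕ) : ℚ) := by
      rw [hA]
      push_cast
      ring
    have h10 : (a : ℚ) * v k ≤ a * (2 * (d i * g i v)) := by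
      nlinarith
    have h11 : (v k : ℚ) ≤ 2 * (d i * g i v) := le_of_mul_le_mul_left h10 (by linarith)
    rw [h9]
    nlinarith
  -- the common M
  obtain ⟨MM, hMM⟩ : ∃ MM, MM = 2 * D + ∑ i, M i := ⟨_, rfl⟩
  have hMM1 : 1 ≤ MM := by omega
  have hMMi : ∀ i, M i ≤ MM := by
    intro i
    have : M i ≤ ∑ i, M i :=
      Finset.single_le_sum (f := M) (fun _ _ => Nat.zero_le _) (Finset.mem_univ i)
    omega
  obtain ⟨s, hs'⟩ : ∃ s : Finset (Fin N), s = Finset.univ.filter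
    fun b : Fin N => (e.symm b).1 ∈ I := ⟨_, rfl⟩
  have hsI : ∀ b ∈ s, (e.symm b).1 ∈ I := by
    intro b hb
    rw [hs', Finset.mem_filter] at hb
    exact hb.2
  have hscard : s.card = ∑ i ∈ I, n i := by
    have h5 : s = (I.sigma fun i => (Finset.univ : Finset (Fin (n i)))).map e.toEmbedding := by
      ext b
      rw [hs', Finset.mem_filter, Finset.mem_map]
      constructor
      · rintro ⟨-, hb⟩
        exact ⟨e.symm b, Finset.mem_sigma.2 ⟨hb, Finset.mem_univ _⟩, e.apply_symm_apply b⟩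
      · rintro ⟨c, hc, rfl⟩
        refine ⟨Finset.mem_univ _, ?_⟩
        change (e.symm (e c)).1 ∈ I
        rw [e.symm_apply_apply]
        exact (Finset.mem_sigma.1 hc).1
    rw [h5, Finset.card_map, Finset.card_sigma]
    simp
  refine kodGeW e hspan p hp0 g hp A hA1 (fun P a v hord i k => hbA i _ (par_of_ord (hlx i)
    (hord i)) k) hlx hx0 (basis_uu e hbas) _ I MM hMM1
    (fun P hPd _ a' v hord hsp hv => ?_) _ (s.orderEmbOfFin hscard)
    (s.orderEmbOfFin hscard).injective fun b => ?_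
  swap
  · exact hsI _ (Finset.orderEmbOfFin_mem s hscard b)
  have hnrm := nrm hspan hlx hord hsp
  have hpar : ∀ i, Par (ℓ i) (v i) := fun i => par_of_ord (hlx i) (hord i)
  have hgn : ∀ i, 0 ≤ g i (v i) := fun i => hb0 i _ (hpar i)
  rcases h P hPd a' v hnrm hv with ⟨k, hk⟩ | ⟨i, hi0, k, hk⟩
  · -- several factors
    have h7 : 1 + 1 / (D : ℚ) ≤ ∑ i, (v i (k i) : ℚ) / d i := by
      obtain ⟨m, hm⟩ : ∃ m : ℕ, ∑ i, (v i (k i) : ℚ) / d i = m / D := by
        refine ⟨∑ i, v i (k i) * ∏ j ∈ Finset.univ.erase i, d j, ?_⟩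
        push_cast
        rw [Finset.sum_div]
        refine Finset.sum_congr rfl fun i _ => ?_
        have h8 : (D : ℚ) = d i * ∏ j ∈ Finset.univ.erase i, (d j : ℚ) := by
          rw [hD]
          push_cast
          exact (Finset.mul_prod_erase Finset.univ (fun j => (d j : ℚ)) (Finset.mem_univ i)).symm
        have h9 : (d i : ℚ) ≠ 0 := by
          have := hd1 i
          positivity
        have h10 : (∏ j ∈ Finset.univ.erase i, (d j : ℚ)) ≠ 0 := by
          refine Finset.prod_ne_zero_iff.2 fun j _ => ?_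
          have := hd1 j
          positivity
        rw [h8]
        field_simp
      have hDq : (0 : ℚ) < D := by exact_mod_cast hDpos
      rw [hm] at hk ⊢
      rw [lt_div_iff₀ hDq, one_mul] at hk
      have h8 : D + 1 ≤ m := by exact_mod_cast hk
      rw [le_div_iff₀ hDq, add_mul, one_div, inv_mul_cancel₀ hDq.ne', one_mul]
      exact_mod_cast h8
    have h8 : ((a : ℚ) - 1) * ∑ i, (v i (k i) : ℚ) / d i ≤ a * ∑ i, g i (v i) := by
      rw [Finset.mul_sum, Finset.mul_sum]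
      refine Finset.sum_le_sum fun i _ => ?_
      have h9 := hg i (v i) (hpar i) (k i)
      have h10 : (0 : ℚ) < d i := by exact_mod_cast hd1 i
      rw [← mul_div_assoc, div_le_iff₀ h10]
      calc ((a : ℚ) - 1) * v i (k i) ≤ a * (d i * g i (v i)) := h9
        _ = a * g i (v i) * d i := by ring
    have hDq : (0 : ℚ) < D := by exact_mod_cast hDpos
    have haD' : 2 * (D : ℚ) + 2 ≤ a := by
      have : 2 * D + 2 ≤ a := by omega
      exact_mod_cast this
    have h9 : 1 + 1 / (2 * (D : ℚ)) ≤ ∑ i, g i (v i) := by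
      have h10 : ((a : ℚ) - 1) * (1 + 1 / (D : ℚ)) ≤ a * ∑ i, g i (v i) :=
        (mul_le_mul_of_nonneg_left h7 (by linarith)).trans h8
      have h11 : (a : ℚ) * (1 + 1 / (2 * (D : ℚ))) ≤ ((a : ℚ) - 1) * (1 + 1 / (D : ℚ)) := by
        have h12 : ((a : ℚ) - 1) * (1 + 1 / (D : ℚ)) - (a : ℚ) * (1 + 1 / (2 * (D : ℚ))) =
            (a - (2 * D + 2)) / (2 * D) := by
          field_simp
          ring
        have h13 : 0 ≤ ((a : ℚ) - (2 * D + 2)) / (2 * D) :=
          div_nonneg (by linarith) (by positivity)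
        linarith
      exact le_of_mul_le_mul_left (h11.trans h10) (by linarith)
    have h10 : (0 : ℚ) < 1 / (2 * (D : ℚ)) := by positivity
    refine ⟨by linarith, fun _ => ?_⟩
    have h11 : 2 * (D : ℚ) ≤ MM := by
      have : 2 * D ≤ MM := by omega
      exact_mod_cast this
    have h12 : (1 : ℚ) ≤ MM * (1 / (2 * (D : ℚ))) := by
      rw [mul_one_div, le_div_iff₀ (by positivity)]
      linarith
    have h13 : (0 : ℚ) < MM := by linarith
    nlinarith
  · -- one factor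
    have hok : Ok i (v i) := ⟨P, hPd, a', v, hnrm, rfl, hi0⟩
    obtain ⟨h7, h8⟩ := hs i (v i) (hpar i) hok ⟨k, hk⟩
    have h9 : g i (v i) ≤ ∑ i, g i (v i) :=
      Finset.single_le_sum (f := fun i => g i (v i)) (fun j _ => hgn j) (Finset.mem_univ i)
    refine ⟨h7.trans h9, ?_⟩
    rintro ⟨i', hi'I, hi'⟩
    have hii : i' = i := by
      by_contra hne
      exact hi' (hi0 i' hne)
    subst hii
    have h10 := h8 fun ⟨c, hc1, hc2⟩ => hI i' hi'I ⟨c, hc1, fun j => hc2 j⟩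
    have h11 : (0 : ℚ) < M i' := by exact_mod_cast hM i'
    have h12 : (M i' : ℚ) ≤ MM := by exact_mod_cast hMMi i'
    have h13 : 1 ≤ (M i' : ℚ) * (g i' (v i') - 1) := by linarith
    have h14 : 0 ≤ g i' (v i') - 1 := by linarith
    nlinarith


end Pool.Agent.Q73.MT
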