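import Pool.Agent.Q73.MT.Kod

/-!
The numerical dimension of a variety over a product of projective spaces, with factors of
Calabi-Yau type.
-/

set_option autoImplicit false
set_option linter.overlappingInstances false
set_option linter.unusedSectionVars false

open FF IntermediateField Pool.Agent.W603.LV Pool.Agent.W602.GT Pool.Agent.W602.Cov
open Pool.Agent.W602.Cov.G Pool.Agent.TH152.AC Pool.Agent.W619.PQ
open Pool.Agent.TH122.AB Pool.Agent.TH756.AR Pool.Agent.TH756.PR
open Pool.Agent.TH756.PN
open MvPolynomial Module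

namespace Pool.Agent.Q73.MT

theorem arith_cy {m n : ℕ} {s : ℝ} (h : m ≤ n + 2) (hs : ((n : ℝ) + 1) / (n + 2) ≤ s) :
    (((m : ℕ) : ℤ) : ℝ) - 1 + 0 ≤ (((m : ℕ) : ℤ) : ℝ) * s := by
  have h1 : (m : ℝ) ≤ n + 2 := by exact_mod_cast h
  have h2 : (0 : ℝ) ≤ m := by positivity
  have h3 : (m : ℝ) * (((n : ℝ) + 1) / (n + 2)) ≤ m * s := mul_le_mul_of_nonneg_left hs h2
  have h4 : (0 : ℝ) < (n : ℝ) + 2 := by positivity
  have h5 : (m : ℝ) * (((n : ℝ) + 1) / (n + 2)) = m - m / (n + 2) := by
    field_simp
    ring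
  have h6 : (m : ℝ) / (n + 2) ≤ 1 := by
    rw [div_le_one h4]
    exact h1
  push_cast
  linarith

theorem arith_cy' {m n : ℕ} {s : ℝ} (h : m ≤ n + 2) (hs : ((n : ℝ) + 1) / (n + 2) ≤ s) :
    (m : ℝ) - 1 + 0 ≤ (m : ℝ) * s := by
  have := arith_cy h hs
  push_cast at this
  exact this

theorem ord_smul {n : ℕ} {K : Type} [Field K] [Algebra ℂ K] {φ ψ : Form n} {x : Fin (n + 1) → K}
    (h1 : lf φ x ≠ 0) (h2 : lf ψ x ≠ 0) {t : ℂ} (h : φ = t • ψ) (P : Place ℂ K) :
    P.ord (lf φ x) = P.ord (lf ψ x) := by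
  have h3 : lf φ x = algebraMap ℂ K t * lf ψ x := by
    rw [h]
    unfold lf
    rw [Finset.mul_sum]
    refine Finset.sum_congr rfl fun j _ => ?_
    rw [LinearMap.smul_apply, smul_eq_mul, map_mul, mul_assoc]
  have ht0 : t ≠ 0 := by
    rintro rfl
    apply h1
    rw [h3, map_zero, zero_mul]
  rw [h3, P.ord_mul ((map_ne_zero _).2 ht0) h2, P.ord_const ht0, zero_add]

theorem General.inj {n q : ℕ} {ℓ : Fin q → Form n} {c : Fin (n + 2) → Fin q} (hn : 1 ≤ n)
    (h : General ℓ c) : Function.Injective c := by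
  intro i j hij
  by_contra hne
  obtain ⟨k, hk1, hk2⟩ : ∃ k : Fin (n + 2), k ≠ i ∧ k ≠ j := by
    by_contra hcon
    push Not at hcon
    have h1 : (Finset.univ : Finset (Fin (n + 2))) ⊆ {i, j} := by
      intro k _
      rw [Finset.mem_insert, Finset.mem_singleton]
      by_cases hk : k = i
      · exact Or.inl hk
      · exact Or.inr (hcon k hk)
    have h2 := Finset.card_le_card h1
    have h3 := Finset.card_le_two (a := i) (b := j)
    rw [Finset.card_univ, Fintype.card_fin] at h2
    omega
  obtain ⟨a, ha⟩ := Fin.exists_succAbove_eq hk1.symm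
  obtain ⟨b, hb⟩ := Fin.exists_succAbove_eq hk2.symm
  have h1 : a = b := (h.1 k).injective (by simp only [ha, hb, hij])
  apply hne
  rw [← ha, ← hb, h1]

variable {r : ℕ} {n q : Fin r → ℕ} {ℓ : ∀ i, Fin (q i) → Form (n i)} {K : Type} [Field K]
  [Algebra ℂ K] {x : ∀ i, Fin (n i + 1) → K}

/-- **The numerical dimension.** -/
theorem nuV {N : ℕ} (hr : 1 ≤ r) (hn : ∀ i, 1 ≤ n i) (hN : N = ∑ i, n i)
    (hℓ : ∀ i k, ℓ i k ≠ 0) (I : Finset (Fin r)) (c : ∀ i, Fin (n i + 2) → Fin (q i))
    (hc : ∀ i, i ∉ I → General (ℓ i) (c i))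
    (F : Finset (MvPolynomial ((i : Fin r) × Fin (n i)) ℂ)) (hF0 : ∀ f ∈ F, f ≠ 0)
    (hF : ∀ f ∈ F, ∀ i, i ∉ I → degI i f = 0)
    (hx0 : ∀ i, x i 0 ≠ 0) (hbas : IsTranscendenceBasis ℂ (aff x))
    (hfd : FiniteDimensional (IntermediateField.adjoin ℂ (Set.range (aff x))) K)
    (hup : ∀ P m, LiesOver x P m → ∀ (a : Fin r → ℤ) (v : ∀ i, Fin (q i) → ℕ), Nrm ℓ x P a v →
      ((∀ i, v i = 0) → (∀ f ∈ F, P.ord (aeval (aff x) f) = 0) → m = 1) ∧
        ∀ i, i ∉ I → v i ≠ 0 → m ≤ n i + 2) :
    Pool.Agent.W619.TW.NumLe ℂ K N (fun _ => False) (∑ i ∈ I, n i) := by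
  classical
  obtain ⟨N', rfl⟩ : ∃ N', N = N' + 1 := by
    have h1 : n ⟨0, hr⟩ ≤ ∑ i, n i :=
      Finset.single_le_sum (f := n) (fun _ _ => Nat.zero_le _) (Finset.mem_univ _)
    have h2 := hn ⟨0, hr⟩
    exact ⟨N - 1, by omega⟩
  let e : ((i : Fin r) × Fin (n i)) ≃ Fin (N' + 1) :=
    finSigmaFinEquiv.trans (finCongr hN.symm)
  have hbas' : IsTranscendenceBasis ℂ (uu e x) := basis_uu e hbas
  have hrange : Set.range (uu e x) = Set.range (aff x) := by
    ext z
    constructor
    · rintro ⟨b, rfl⟩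
      exact ⟨e.symm b, rfl⟩
    · rintro ⟨a, rfl⟩
      refine ⟨e a, ?_⟩
      change aff x (e.symm (e a)) = _
      rw [e.symm_apply_apply]
  have hae : ∀ f : MvPolynomial (Fin (N' + 1)) ℂ,
      aeval (aff x) (rename e.symm f) = aeval (uu e x) f := by
    intro f
    rw [aeval_rename]
    rfl
  have hren : ∀ f : MvPolynomial ((i : Fin r) × Fin (n i)) ℂ, rename e.symm (rename e f) = f := by
    intro f
    rw [rename_rename]
    have : (e.symm ∘ e : ((i : Fin r) × Fin (n i)) → _) = id := by
      funext a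
      simp
    rw [this, rename_id_apply]
  have hren0 : ∀ f : MvPolynomial (Fin (N' + 1)) ℂ, f ≠ 0 → rename e.symm f ≠ 0 := by
    intro f hf h0
    exact hf (rename_injective _ e.symm.injective (by rw [h0, map_zero]))
  have hdvd : ∀ f g : MvPolynomial (Fin (N' + 1)) ℂ, rename e.symm f ∣ rename e.symm g ↔ f ∣ g := by
    intro f g
    exact map_dvd_iff (renameEquiv ℂ e.symm)
  have hlift : ∀ i (ψ : Form (n i)), ψ ≠ 0 → lift e i ψ ≠ 0 := by
    intro i ψ hψ h0
    apply hψ
    apply lift_inj e
    rw [h0]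
    ext z
    simp [lift_apply]
  have hval : ∀ (P : Place ℂ K) i (φ : Form (n i)), φ ≠ 0 →
      P.ord (lf φ (x i)) = P.ord (aeval (uu e x) (lp (lift e i φ))) + P.ord (x i 0) := by
    intro P i φ hφ
    have h1 := aeval_lift e hx0 i φ
    have h2 : lf φ (x i) ≠ 0 := lfs_ne hx0 hbas i hφ
    rw [h1, P.ord_div h2 (hx0 i)]
    ring
  have hlf0 : ∀ i, lf (0 : Form (n i)) (x i) = 0 := fun i => by simp [lf]
  have hproj : ∀ i, lf (LinearMap.proj 0 : Form (n i)) (x i) = x i 0 := fun i => Pool.Agent.W168.CG.PGR.lf_proj _ _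
  have hproj0 : ∀ i, (LinearMap.proj 0 : Form (n i)) ≠ 0 := by
    intro i h0
    have := hproj i
    rw [h0, hlf0] at this
    exact hx0 i this.symm
  have hlx : ∀ i k, lf (ℓ i k) (x i) ≠ 0 := fun i k => lfs_ne hx0 hbas i (hℓ i k)
  have hwsum : ∀ i, i ∉ I → ∑ k, (if ∃ j, c i j = k then ((n i : ℝ) + 1) / (n i + 2) else 0) =
      (n i : ℝ) + 1 := by
    intro i hi
    rw [← Finset.sum_filter, Finset.sum_const, nsmul_eq_mul]
    have h1 : (Finset.univ.filter fun k => ∃ j, c i j = k) = Finset.univ.image (c i) := by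
      ext k
      simp
    rw [h1, Finset.card_image_of_injective _ (General.inj (hn i) (hc i hi)), Finset.card_univ,
      Fintype.card_fin]
    push_cast
    have h4 : (0 : ℝ) < (n i : ℝ) + 2 := by positivity
    field_simp
  suffices hs : NumLeP ℂ K (N' + 1) Set.univ (fun _ => 0) (∑ i ∈ I, n i) by
    intro S
    obtain ⟨C, hC⟩ := hs S
    refine ⟨C, fun m N0 hm ⟨ω, hω1, hω2⟩ => hC m N0 hm ⟨ω, hω1, fun l => ⟨(hω2 l).1,
      fun P _ hP D hD => ?_⟩⟩⟩
    rcases (hω2 l).2.1 P hP not_false D hD with h | ⟨s, hs, hs0, h⟩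
    · exact Or.inl h
    · refine Or.inr ⟨s, hs, hs0, ?_⟩
      rw [mul_zero, sub_zero]
      rw [Nat.cast_one, one_mul] at h
      exact_mod_cast h
  refine nuW e hn hℓ hbas' (by rw [hrange]; exact hfd) I
    (fun i k => if i ∈ I then 0 else (if ∃ j, c i j = k then ((n i : ℝ) + 1) / (n i + 2) else 0))
    (fun i k => ?_) (fun i hi => ?_)
    (fun b : F => rename e b.1) (fun b h0 => hF0 b.1 b.2 (rename_injective _ e.injective
      (by rw [h0, map_zero]))) (fun b i hi => ?_) Set.univ (fun _ => 0) (fun _ _ => zero_le_one) ?_ ?_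
  · skip
    split_ifs with h
    · exact le_rfl
    · positivity
    · exact le_rfl
  · simp only [if_neg hi]
    exact hwsum i hi
  · rw [← degI_rename, hren]
    exact hF b.1 b.2 i hi
  · -- the places of the irreducible polynomials
    intro p hp P hP
    obtain ⟨m, hm⟩ : ∃ m : ℕ, P.ord (aeval (uu e x) p) = m :=
      ⟨(P.ord (aeval (uu e x) p)).toNat, by have := (hP p hp.ne_zero).1; omega⟩
    have hm0 : m ≠ 0 := by
      rintro rfl
      exact (hP p hp.ne_zero).2.1 hm (dvd_refl p)
    have hlo : LiesOver x P m := by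
      left
      refine ⟨rename e.symm p, ?_, by rw [hae]; exact hm, fun f hf => ?_⟩
      · exact (MulEquiv.irreducible_iff (renameEquiv ℂ e.symm)).2 hp
      · rw [← hren f, hae, hdvd]
        refine hP _ fun h0 => hf ?_
        rw [← hren f, h0, map_zero]
    have hordp : ∀ i (φ : Form (n i)), φ ≠ 0 → p ∣ lp (lift e i φ) →
        P.ord (aeval (uu e x) (lp (lift e i φ))) = m := by
      intro i φ hφ hd
      obtain ⟨c, hc, h1⟩ := dvd_lp hp (hlift i φ hφ) hd
      have hp0 : aeval (uu e x) p ≠ 0 := by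
        intro h0
        rw [h0, P.ord_zero] at hm
        exact hm0 (by exact_mod_cast hm.symm)
      have hc0 : algebraMap ℂ K c ≠ 0 := by
        rw [Ne, map_eq_zero]
        exact hc
      rw [h1, map_mul, aeval_C, P.ord_mul hc0 hp0, P.ord_const hc, hm, zero_add]
    have hnrm : Nrm ℓ x P (fun i => P.ord (x i 0))
        fun i k => if p ∣ lp (lift e i (ℓ i k)) then m else 0 := by
      refine ⟨fun i φ => ?_, fun i => ⟨LinearMap.proj 0, ?_, ?_⟩, fun i k => ?_⟩
      · by_cases hφ : φ = 0
        · left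
          rw [hφ, hlf0]
        · right
          rw [hval P i φ hφ]
          have := (hP _ (lp_ne (hlift i φ hφ))).1
          linarith
      · rw [hproj]
        exact hx0 i
      · rw [hproj]
      · rw [hval P i _ (hℓ i k)]
        dsimp only
        by_cases hd : p ∣ lp (lift e i (ℓ i k))
        · rw [if_pos hd, hordp i _ (hℓ i k) hd]
          ring
        · rw [if_neg hd, (hP _ (lp_ne (hlift i _ (hℓ i k)))).2.2 hd]
          simp
    obtain ⟨hu1, hu2⟩ := hup P m hlo _ _ hnrm
    refine ⟨Set.mem_univ _, fun hno hnoF => ?_, fun i hi hex => ?_⟩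
    · have h1 := hu1 (fun i => by
        funext k
        exact if_neg (hno i k)) (fun f hf => by
        rw [← hren f, hae]
        refine (hP _ fun h0 => hF0 f hf ?_).2.2 (hnoF ⟨f, hf⟩)
        rw [← hren f, h0, map_zero])
      rw [hm, h1]
      exact ⟨rfl, le_rfl⟩
    · obtain ⟨k, hk⟩ := hex
      have h1 := hu2 i hi (by
        intro h0
        have h2 := congrFun h0 k
        simp only [if_pos hk, Pi.zero_apply] at h2
        exact hm0 h2)
      obtain ⟨j, t, ht⟩ := (hc i hi).2 k
      have h2 : p ∣ lp (lift e i (ℓ i (c i j))) := by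
        have h3 := hordp i _ (hℓ i k) hk
        have h4 := hval P i _ (hℓ i k)
        have h5 := hval P i _ (hℓ i (c i j))
        have h6 : P.ord (lf (ℓ i k) (x i)) = P.ord (lf (ℓ i (c i j)) (x i)) :=
          ord_smul (hlx i k) (hlx i (c i j)) ht P
        by_contra h7
        have h8 := (hP _ (lp_ne (hlift i _ (hℓ i (c i j))))).2.2 h7
        rw [h8] at h5
        rw [h3] at h4
        rw [h4, h5] at h6
        omega
      rw [hm]
      simp only [if_neg hi]
      have h3 : ((n i : ℝ) + 1) / (n i + 2) ≤ ∑ k, (if p ∣ lp (lift e i (ℓ i k)) then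
          (if ∃ j, c i j = k then ((n i : ℝ) + 1) / (n i + 2) else 0) else 0) := by
        refine le_trans (le_of_eq ?_) (Finset.single_le_sum (f := fun k =>
          (if p ∣ lp (lift e i (ℓ i k)) then
          (if ∃ j, c i j = k then ((n i : ℝ) + 1) / (n i + 2) else 0) else 0))
          (fun k _ => ?_) (Finset.mem_univ (c i j)))
        · skip
          rw [if_pos h2, if_pos ⟨j, rfl⟩]
        · skip
          split_ifs <;> positivity
      exact arith_cy h1 h3
  · -- the places at infinity
    intro i P m hm hP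
    have hlo : LiesOver x P m := by
      right
      refine ⟨hm, i, fun f hf => ?_⟩
      rw [← hren f, hae, degI_rename]
      refine hP _ fun h0 => hf ?_
      rw [← hren f, h0, map_zero]
    refine ⟨Set.mem_univ _, fun hi => ?_⟩
    have hne : ∀ j (φ : Form (n j)), φ ≠ 0 → j ≠ i → P.ord (lf φ (x j)) = P.ord (x j 0) := by
      intro j φ hφ hj
      rw [hval P j φ hφ, hP _ (lp_ne (hlift j φ hφ)), degB_lift_ne e hj]
      simp
    have hnrm : Nrm ℓ x P (fun j => P.ord (x j 0) - (if j = i then (m : ℤ) else 0))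
        fun j k => if j = i then (if (∃ s : ℂ, ℓ j k = s • LinearMap.proj 0) then m else 0)
          else 0 := by
      refine ⟨fun j φ => ?_, fun j => ?_, fun j k => ?_⟩
      · by_cases hφ : φ = 0
        · left
          rw [hφ, hlf0]
        · right
          dsimp only
          by_cases hj : j = i
          · subst hj
            rw [if_pos rfl, hval P j φ hφ, hP _ (lp_ne (hlift j φ hφ))]
            have h1 := degB_lp_le (bk e j) (lift e j φ)
            have h2 : (m : ℤ) * (degB (bk e j) (lp (lift e j φ)) : ℤ) ≤ m * 1 := by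
              apply mul_le_mul_of_nonneg_left _ (by positivity)
              exact_mod_cast h1
            linarith
          · rw [if_neg hj, hne j φ hφ hj, sub_zero]
      · dsimp only
        by_cases hj : j = i
        · subst hj
          refine ⟨LinearMap.proj (⟨0, hn j⟩ : Fin (n j)).succ, ?_, ?_⟩
          · refine lfs_ne hx0 hbas j ?_
            intro h0
            have h1 := LinearMap.congr_fun h0 (Pi.single (⟨0, hn j⟩ : Fin (n j)).succ 1)
            simp at h1
          · have h0 : (LinearMap.proj (⟨0, hn j⟩ : Fin (n j)).succ : Form (n j)) ≠ 0 := by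
              intro h0
              have h1 := LinearMap.congr_fun h0 (Pi.single (⟨0, hn j⟩ : Fin (n j)).succ 1)
              simp at h1
            have h1 : ¬ ∃ s : ℂ, (LinearMap.proj (⟨0, hn j⟩ : Fin (n j)).succ : Form (n j)) =
                s • LinearMap.proj 0 := by
              rintro ⟨s, hs⟩
              have h1 := LinearMap.congr_fun hs (Pi.single (⟨0, hn j⟩ : Fin (n j)).succ 1)
              simp at h1
            rw [if_pos rfl, hval P j _ h0, hP _ (lp_ne (hlift j _ h0)), degB_lift_one e h1]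
            push_cast
            ring
        · refine ⟨LinearMap.proj 0, ?_, ?_⟩
          · rw [hproj]
            exact hx0 j
          · rw [hproj, if_neg hj, sub_zero]
      · dsimp only
        by_cases hj : j = i
        · subst hj
          rw [if_pos rfl, if_pos rfl, hval P j _ (hℓ j k), hP _ (lp_ne (hlift j _ (hℓ j k)))]
          by_cases hs : ∃ s : ℂ, ℓ j k = s • LinearMap.proj 0
          · rw [if_pos hs, degB_lift_zero e hs]
            push_cast
            ring
          · rw [if_neg hs, degB_lift_one e hs]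
            push_cast
            ring
        · rw [if_neg hj, if_neg hj, hne j _ (hℓ j k) hj]
          simp
    obtain ⟨hu1, hu2⟩ := hup P m hlo _ _ hnrm
    simp only [if_neg hi]
    by_cases hex : ∃ k, ∃ s : ℂ, ℓ i k = s • LinearMap.proj 0
    · obtain ⟨k, hk⟩ := hex
      have h1 := hu2 i hi (by
        intro h0
        have h2 := congrFun h0 k
        simp only [if_pos hk, if_true, Pi.zero_apply] at h2
        omega)
      obtain ⟨s, hs⟩ := hk
      obtain ⟨j, t, ht⟩ := (hc i hi).2 k
      have ht0 : t ≠ 0 := by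
        rintro rfl
        apply hℓ i k
        rw [ht, zero_smul]
      have h2 : ∃ s : ℂ, ℓ i (c i j) = s • LinearMap.proj 0 :=
        ⟨t⁻¹ * s, by rw [mul_smul, ← hs, ht, smul_smul, inv_mul_cancel₀ ht0, one_smul]⟩
      have h3 : ((n i : ℝ) + 1) / (n i + 2) ≤ ∑ k, (if (∃ s : ℂ, ℓ i k = s • LinearMap.proj 0) then
          (if ∃ j, c i j = k then ((n i : ℝ) + 1) / (n i + 2) else 0) else 0) := by
        refine le_trans (le_of_eq ?_) (Finset.single_le_sum (f := fun k =>
          (if (∃ s : ℂ, ℓ i k = s • LinearMap.proj 0) then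
          (if ∃ j, c i j = k then ((n i : ℝ) + 1) / (n i + 2) else 0) else 0))
          (fun k _ => ?_) (Finset.mem_univ (c i j)))
        · skip
          rw [if_pos h2, if_pos ⟨j, rfl⟩]
        · skip
          split_ifs <;> positivity
      exact arith_cy' h1 h3
    · push Not at hex
      have h1 := hu1 (fun j => by
        funext k
        by_cases hj : j = i
        · subst hj
          simp only [if_true]
          rw [if_neg]
          · rfl
          · rintro ⟨s, hs⟩
            exact hex k s hs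
        · simp only [if_neg hj]
          rfl) (fun f hf => by
        rw [← hren f, hae, hP _ fun h0 => hF0 f hf (by rw [← hren f, h0, map_zero]),
          ← degI_rename, hren, hF f hf i hi]
        simp)
      have h3 : (∑ k, if (∃ s : ℂ, ℓ i k = s • LinearMap.proj 0) then
          (if ∃ j, c i j = k then ((n i : ℝ) + 1) / (n i + 2) else 0) else 0) = 0 := by
        refine Finset.sum_eq_zero fun k _ => ?_
        rw [if_neg]
        rintro ⟨s, hs⟩
        exact hex k s hs
      rw [h3, h1]
      push_cast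
      linarith

end Pool.Agent.Q73.MT
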